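import Mathlib
import Pool.Agent.R172.Star

set_option autoImplicit false

/-!
# Starshapedness from clear visibility of the locally non-convex points

In every dimension `d`, a compact connected set in which any `d + 1` locally non-convex points are
clearly visible from a common point is starshaped.

Outline. By compactness there is a uniform radius `ρ` for all `(d + 1)`-tuples of locally
non-convex points, and Helly's theorem gives a point `y` in the closed convex hull of the set `V q`
of the points which see all of `E ∩ B(q, ρ)`, for every locally non-convex point `q`. A touching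
ball argument shows that near every such `q` the points of `E` can be moved toward `y` by a fixed
fraction inside `E` (`moves_of_visible`). The property of being movable propagates backwards along
segments toward `y` (`moves_back`). If `y ∈ E`, then the set of the points which are seen from `y`
is open and closed in `E`. If `y ∉ E`, then `E` is rectifiably connected, and along a shortest
path `γ` of length `L` from a nearest point `w` of `y` the function `|γ t - y|² - L² t²` is convex
(second variation), so `⟨x - w, w - y⟩ ≥ 0` for all `x ∈ E`, which contradicts `y ∈ cl conv E`.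
-/

namespace Pool.Agent.Results.MP_ad2f8c_co.ClearVisibility

open Set Metric Topology

/-- The point `y` sees the point `x` in `E`. -/
def Sees {d : ℕ} (E : Set (EuclideanSpace ℝ (Fin d))) (y x : EuclideanSpace ℝ (Fin d)) : Prop :=
  segment ℝ x y ⊆ E

/-- `E` is starshaped. -/
def Starshaped {d : ℕ} (E : Set (EuclideanSpace ℝ (Fin d))) : Prop :=
  ∃ y ∈ E, ∀ x ∈ E, Sees E y x

/-- `x` is a locally non-convex point of `E`. -/
def LNC {d : ℕ} (E : Set (EuclideanSpace ℝ (Fin d))) (x : EuclideanSpace ℝ (Fin d)) : Prop :=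
  x ∈ frontier E ∧ ∀ r > 0, ¬ Convex ℝ (ball x r ∩ E)

/-- `x` is clearly visible from `y`. -/
def ClearlyVisible {d : ℕ} (E : Set (EuclideanSpace ℝ (Fin d)))
    (x y : EuclideanSpace ℝ (Fin d)) : Prop :=
  ∃ r > 0, ∀ z ∈ ball x r ∩ E, Sees E y z

/-- The property `C_n`. -/
def PropC {d : ℕ} (E : Set (EuclideanSpace ℝ (Fin d))) (n : ℕ) : Prop :=
  ∀ x : Fin n → EuclideanSpace ℝ (Fin d), (∀ i, LNC E (x i)) →
    ∃ y ∈ E, ∀ i, ClearlyVisible E (x i) y

open Pool.Agent.R172

variable {d : ℕ}

lemma sees_iff {E : Set (EuclideanSpace ℝ (Fin d))} {y x : EuclideanSpace ℝ (Fin d)} :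
    Sees E y x ↔ ∀ t ∈ Icc (0 : ℝ) 1, mv y x t ∈ E := by
  unfold Sees
  rw [segment_eq_image']
  constructor
  · intro h t ht
    exact h ⟨t, ht, rfl⟩
  · rintro h _ ⟨t, ht, rfl⟩
    exact h t ht

/-- the points which see everything near `q` -/
def Vis (E : Set (EuclideanSpace ℝ (Fin d))) (ρ : ℝ) (q : EuclideanSpace ℝ (Fin d)) :
    Set (EuclideanSpace ℝ (Fin d)) :=
  {y' | y' ∈ E ∧ ∀ z ∈ E, dist z q < ρ → ∀ t ∈ Icc (0 : ℝ) 1, mv y' z t ∈ E}

/-- the locally non-convex points -/
def Q (E : Set (EuclideanSpace ℝ (Fin d))) : Set (EuclideanSpace ℝ (Fin d)) :=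
  {q | q ∈ E ∧ ∀ r > 0, ¬ Convex ℝ (ball q r ∩ E)}

lemma lnc_of_mem {E : Set (EuclideanSpace ℝ (Fin d))} {q : EuclideanSpace ℝ (Fin d)}
    (hq : q ∈ Q E) : LNC E q := by
  refine ⟨?_, hq.2⟩
  refine ⟨subset_closure hq.1, fun hint => ?_⟩
  obtain ⟨r, hr, hsub⟩ := Metric.mem_nhds_iff.1 (mem_interior_iff_mem_nhds.1 hint)
  apply hq.2 r hr
  rw [inter_eq_left.2 hsub]
  exact convex_ball q r

lemma isCompact_Q {E : Set (EuclideanSpace ℝ (Fin d))} (hE : IsCompact E) : IsCompact (Q E) := by
  have h : Q E = E ∩ {q | ∀ r > 0, ¬ Convex ℝ (ball q r ∩ E)} := rfl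
  rw [h]
  refine hE.inter_right ?_
  rw [← isOpen_compl_iff, Metric.isOpen_iff]
  intro q hq
  simp only [mem_compl_iff, mem_ofPred_eq, not_forall, not_not] at hq
  obtain ⟨r, hr, hconv⟩ := hq
  refine ⟨r / 2, by linarith, fun q' hq' => ?_⟩
  simp only [mem_compl_iff, mem_ofPred_eq, not_forall, not_not]
  refine ⟨r / 2, by linarith, ?_⟩
  have hsub : ball q' (r / 2) ⊆ ball q r := by
    apply ball_subset_ball'
    have : dist q' q < r / 2 := hq'
    linarith
  have : ball q' (r / 2) ∩ E = ball q' (r / 2) ∩ (ball q r ∩ E) := by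
    rw [← inter_assoc, inter_eq_left.2 hsub]
  rw [this]
  exact (convex_ball _ _).inter hconv

/-- A uniform radius for all tuples. -/
lemma exists_radius {E : Set (EuclideanSpace ℝ (Fin d))} (hE : IsCompact E) {n : ℕ}
    (h : PropC E (n + 1)) :
    ∃ ρ > 0, ∀ q : Fin (n + 1) → EuclideanSpace ℝ (Fin d), (∀ i, q i ∈ Q E) →
      ∃ y, ∀ i, y ∈ Vis E ρ (q i) := by
  have hK : IsCompact (Set.pi univ (fun _ : Fin (n + 1) => Q E)) :=
    isCompact_univ_pi fun _ => isCompact_Q hE
  suffices H : ∃ ρ > 0, ∀ q ∈ Set.pi univ (fun _ : Fin (n + 1) => Q E),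
      ∃ y, ∀ i, y ∈ Vis E ρ (q i) by
    obtain ⟨ρ, hρ, H⟩ := H
    exact ⟨ρ, hρ, fun q hq => H q (fun i _ => hq i)⟩
  have hmono : ∀ ρ ρ', ρ ≤ ρ' → ∀ q, Vis E ρ' q ⊆ Vis E ρ q := by
    rintro ρ ρ' hρ q y ⟨hy, hv⟩
    exact ⟨hy, fun z hz hd => hv z hz (hd.trans_le hρ)⟩
  refine hK.induction_on
    (p := fun K => ∃ ρ > 0, ∀ q ∈ K, ∃ y, ∀ i, y ∈ Vis E ρ (q i)) ?_ ?_ ?_ ?_
  · exact ⟨1, one_pos, by simp⟩
  · rintro s t hst ⟨ρ, hρ, ht⟩
    exact ⟨ρ, hρ, fun q hq => ht q (hst hq)⟩
  · rintro s t ⟨ρ, hρ, hs⟩ ⟨ρ', hρ', ht⟩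
    refine ⟨min ρ ρ', lt_min hρ hρ', ?_⟩
    rintro q (hq | hq)
    · obtain ⟨y, hy⟩ := hs q hq
      exact ⟨y, fun i => hmono _ _ (min_le_left _ _) _ (hy i)⟩
    · obtain ⟨y, hy⟩ := ht q hq
      exact ⟨y, fun i => hmono _ _ (min_le_right _ _) _ (hy i)⟩
  · intro q hq
    obtain ⟨y, hy, hvis⟩ := h q (fun i => lnc_of_mem (hq i (mem_univ i)))
    choose r hr hr' using hvis
    obtain ⟨i0, -, hi0⟩ := Finset.exists_min_image Finset.univ r
      ⟨(0 : Fin (n + 1)), Finset.mem_univ _⟩
    have hr0 := hr i0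
    refine ⟨ball q (r i0 / 2), mem_nhdsWithin_of_mem_nhds (ball_mem_nhds q (by linarith)),
      r i0 / 2, by linarith, fun q' hq' => ⟨y, fun i => ⟨hy, fun z hz hd => ?_⟩⟩⟩
    have h1 : dist (q' i) (q i) < r i0 / 2 := (dist_le_pi_dist q' q i).trans_lt hq'
    have h2 := dist_triangle z (q' i) (q i)
    have h3 := hi0 i (Finset.mem_univ i)
    exact sees_iff.1 (hr' i z ⟨by rw [mem_ball]; linarith, hz⟩)

/-- **The question has a positive answer in every dimension**, with `n(d) = d + 1`: every compact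
connected set with the property `C_{d+1}` is starshaped. -/
theorem result (d : ℕ) (E : Set (EuclideanSpace ℝ (Fin d))) (hE : IsCompact E)
    (hc : IsConnected E) (h : PropC E (d + 1)) : Starshaped E := by
  classical
  obtain ⟨ρ, hρ, hvis⟩ := exists_radius hE h
  have hrank : Module.finrank ℝ (EuclideanSpace ℝ (Fin d)) + 1 = d + 1 := by
    rw [finrank_euclideanSpace, Fintype.card_fin]
  -- the centre
  have hcentre : ∃ y ∈ closure (convexHull ℝ E),
      ∀ q ∈ Q E, y ∈ closure (convexHull ℝ (Vis E ρ q)) := by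
    rcases (Q E).eq_empty_or_nonempty with hemp | ⟨q0, hq0⟩
    · obtain ⟨y, hy⟩ := hc.nonempty
      refine ⟨y, subset_closure (subset_convexHull ℝ _ hy), fun q hq => ?_⟩
      rw [hemp] at hq
      exact absurd hq (notMem_empty q)
    · have hsubE : ∀ q, Vis E ρ q ⊆ E := fun q y hy => hy.1
      have hhelly : (⋂ q : ↥(Q E), closure (convexHull ℝ (Vis E ρ (q : _)))).Nonempty := by
        refine Convex.helly_theorem_compact' (𝕜 := ℝ)
          (fun q => (convex_convexHull ℝ _).closure) (fun q => ?_) ?_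
        · exact (isBounded_convexHull.2 (hE.isBounded.subset (hsubE q))).isCompact_closure
        · intro J hJ
          rw [hrank] at hJ
          rcases J.eq_empty_or_nonempty with rfl | hne
          · simp
          · have : Nonempty ↥J := hne.to_subtype
            obtain ⟨e⟩ := Function.Embedding.nonempty_of_card_le
              (α := ↥J) (β := Fin (d + 1)) (by simpa using hJ)
            have hs : Function.Surjective (Function.invFun e) :=
              Function.invFun_surjective e.injective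
            obtain ⟨y, hy⟩ := hvis (fun k => ((Function.invFun e k : ↥J) : ↥(Q E)))
              (fun k => ((Function.invFun e k : ↥J) : ↥(Q E)).2)
            refine ⟨y, ?_⟩
            simp only [mem_iInter]
            intro q hq
            obtain ⟨k, hk⟩ := hs ⟨q, hq⟩
            have := hy k
            rw [hk] at this
            exact subset_closure (subset_convexHull ℝ _ this)
      obtain ⟨y, hy⟩ := hhelly
      simp only [mem_iInter] at hy
      refine ⟨y, closure_mono (convexHull_mono (hsubE q0)) (hy ⟨q0, hq0⟩), fun q hq => hy ⟨q, hq⟩⟩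
  obtain ⟨y, hyh, hyQ⟩ := hcentre
  have hQ : ∀ q ∈ E, (∀ r > 0, ¬ Convex ℝ (ball q r ∩ E)) → Moves E y q := by
    intro q hq hq'
    exact moves_of_visible hE hρ (hyQ q ⟨hq, hq'⟩)
  have hyE : y ∈ E := mem_of_mem_closure_hull hE hc.isPreconnected hc.nonempty hyh hQ
  refine ⟨y, hyE, fun x hx => sees_iff.2 ?_⟩
  exact star_of_mem hE.isClosed hc.isPreconnected hyE hQ x hx

end Pool.Agent.Results.MP_ad2f8c_co.ClearVisibility
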